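import Pool.Agent.H32.BLat.Projective

/-!
# Every separable Banach lattice is an inductive limit of semiprojective Banach lattices

Every separable Banach lattice `E` is the inductive limit of a sequence of semiprojective (in fact
projective) Banach lattices with contractive lattice homomorphisms.  All the Banach lattices of the
sequence are renormings of `C([-1,1]^ℕ)`, the norm being the gauge of the solid convex hull of a
finite set of non-negative functions.
-/

set_option linter.unusedSectionVars false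
set_option linter.style.haveILetI false

namespace Pool.Agent.Results.MP_566259_an.InductiveLimit

open Set Filter Topology
open Pool.Agent.H32.BLat

universe u v

lemma adm_single {G : Finset C(Cube, ℝ)} (hG : Good G) {g : C(Cube, ℝ)} (hg : g ∈ G) :
    Adm G g 1 := by
  classical
  refine ⟨fun g' => if g' = g then 1 else 0, ?_, ?_, ?_⟩
  · intro g' _
    show (0 : ℝ) ≤ if g' = g then 1 else 0
    split_ifs <;> norm_num
  · rw [Finset.sum_ite_eq' G, if_pos hg]
  · rw [Finset.sum_eq_single g]
    · show |g| ≤ (if g = g then (1 : ℝ) else 0) • g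
      rw [if_pos rfl, one_smul, abs_of_nonneg (hG.nonneg g hg)]
    · intro b _ hb
      show (if b = g then (1 : ℝ) else 0) • b = 0
      rw [if_neg hb, zero_smul]
    · intro h; exact absurd hg h

lemma adm_subset {G G' : Finset C(Cube, ℝ)} (h : G ⊆ G') {f : C(Cube, ℝ)} {r : ℝ}
    (hf : Adm G f r) : Adm G' f r := by
  classical
  obtain ⟨l, h1, h2, h3⟩ := hf
  have e1 : ∑ g ∈ G', (if g ∈ G then l g else 0) = ∑ g ∈ G, l g := by
    rw [← Finset.sum_filter]
    congr 1
    ext g
    rw [Finset.mem_filter]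
    exact ⟨fun hg => hg.2, fun hg => ⟨h hg, hg⟩⟩
  have e2 : ∑ g ∈ G', (if g ∈ G then l g else 0) • g = ∑ g ∈ G, l g • g := by
    have : ∀ g ∈ G', (if g ∈ G then l g else 0) • g = if g ∈ G then l g • g else 0 := by
      intro g _
      split_ifs
      · rfl
      · rw [zero_smul]
    rw [Finset.sum_congr rfl this, ← Finset.sum_filter]
    congr 1
    ext g
    rw [Finset.mem_filter]
    exact ⟨fun hg => hg.2, fun hg => ⟨h hg, hg⟩⟩
  refine ⟨fun g => if g ∈ G then l g else 0, ?_, ?_, ?_⟩
  · intro g _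
    show 0 ≤ if g ∈ G then l g else 0
    split_ifs with hg
    · exact h1 g hg
    · exact le_rfl
  · rw [e1]; exact h2
  · rw [e2]; exact h3

lemma rho_subset {G G' : Finset C(Cube, ℝ)} (hG : Good G) (h : G ⊆ G') (f : C(Cube, ℝ)) :
    rho G' f ≤ rho G f := by
  apply le_csInf (adm_nonempty hG f)
  intro r hr
  exact rho_le_of_adm (adm_subset h hr)

/-- The identity map between two renormings. -/
noncomputable def idMap (G G' : Finset C(Cube, ℝ)) (hG : Good G) (hG' : Good G') :
    RCLat G hG →ₗ[ℝ] RCLat G' hG' :=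
  (RC.equiv G' hG').toLinearMap.comp (RC.equiv G hG).symm.toLinearMap

lemma composite_norm (G : ℕ → Finset C(Cube, ℝ)) (hG : ∀ n, Good (G n)) (n k : ℕ)
    (f : C(Cube, ℝ)) :
    composite (fun n => RCLat (G n) (hG n)) (fun n => idMap (G n) (G (n + 1)) (hG n) (hG (n + 1)))
      n k (RC.equiv (G n) (hG n) f) = RC.equiv (G (n + k)) (hG (n + k)) f := by
  induction k with
  | zero => rfl
  | succ k ih =>
    have h1 : composite (fun n => RCLat (G n) (hG n))
        (fun n => idMap (G n) (G (n + 1)) (hG n) (hG (n + 1))) n (k + 1)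
          (RC.equiv (G n) (hG n) f) =
        idMap (G (n + k)) (G (n + k + 1)) (hG (n + k)) (hG (n + k + 1))
          (composite (fun n => RCLat (G n) (hG n))
            (fun n => idMap (G n) (G (n + 1)) (hG n) (hG (n + 1))) n k
            (RC.equiv (G n) (hG n) f)) := rfl
    rw [h1, ih]
    rfl

/-- A separable Banach lattice receives a lattice homomorphism from `C([-1,1]^ℕ)` with dense
range. -/
theorem exists_dense_hom (E : BanachLattice.{u}) (hE : TopologicalSpace.SeparableSpace E) :
    ∃ θ : C(Cube, ℝ) →ₗ[ℝ] E, (∀ f, θ |f| = |θ f|) ∧ (∃ C : ℝ, 0 ≤ C ∧ ∀ f, ‖θ f‖ ≤ C * ‖f‖) ∧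
      DenseRange θ := by
  set x : ℕ → E := TopologicalSpace.denseSeq E with hx
  have hxd : DenseRange x := TopologicalSpace.denseRange_denseSeq E
  set w : ℕ → ℝ := fun n => (1 / 2) ^ n / (1 + ‖x n‖) with hw
  have hw0 : ∀ n, 0 < w n := fun n => by
    simp only [hw]
    have := norm_nonneg (x n)
    positivity
  set a : ℕ → E := fun n => w n • |x n| with ha
  have ha0 : ∀ n, 0 ≤ a n := fun n => smul_nonneg (hw0 n).le (abs_nonneg _)
  have hanorm : ∀ n, ‖a n‖ ≤ (1 / 2) ^ n := by
    intro n
    simp only [ha]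
    rw [norm_smul, Real.norm_eq_abs, abs_of_pos (hw0 n), norm_abs_eq_norm]
    simp only [hw]
    rw [div_mul_eq_mul_div, div_le_iff₀ (by have := norm_nonneg (x n); positivity)]
    have h1 : (0 : ℝ) < (1 / 2) ^ n := by positivity
    nlinarith [norm_nonneg (x n)]
  have hasum : Summable a := by
    apply Summable.of_norm_bounded summable_geometric_two hanorm
  set e : E := ∑' n, a n with he
  have hae : ∀ n, a n ≤ e := fun n => hasum.le_tsum n (fun m _ => ha0 m)
  have he0 : 0 ≤ e := (ha0 0).trans (hae 0)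
  set b : ℕ → E := fun n => w n • x n with hb
  have hbe : ∀ n, |b n| ≤ e := by
    intro n
    simp only [hb]
    rw [abs_smul', abs_of_pos (hw0 n)]
    exact hae n
  obtain ⟨θ, h1, h2, h3, h4, _⟩ := calculus e he0 b hbe
  refine ⟨θ, h1, ⟨‖e‖, norm_nonneg _, h4⟩, ?_⟩
  apply hxd.mono
  rintro _ ⟨n, rfl⟩
  refine ⟨(w n)⁻¹ • coord n, ?_⟩
  rw [map_smul, h3]
  simp only [hb]
  rw [smul_smul, inv_mul_cancel₀ (hw0 n).ne', one_smul]

/-- **Positive answer to Q1.** Every separable Banach lattice is an inductive limit of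
semiprojective Banach lattices with contractive lattice homomorphisms as connecting maps. -/
theorem result (E : BanachLattice.{u}) (hE : TopologicalSpace.SeparableSpace E) :
    ∃ (A : ℕ → BanachLattice.{0}) (φ : ∀ n, A n →ₗ[ℝ] A (n + 1)),
      (∀ n, Semiprojective.{0, v} (A n)) ∧
      (∀ n, IsLatticeHom (φ n) ∧ ∀ x, ‖φ n x‖ ≤ ‖x‖) ∧
      IsInductiveLimit E A φ := by
  classical
  obtain ⟨θ, hθabs, ⟨C, hC0, hC⟩, hθd⟩ := exists_dense_hom E hE
  -- the set of admissible non-negative functions
  set W : Set C(Cube, ℝ) := {f | 0 ≤ f ∧ ‖θ f‖ < 1} with hW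
  haveI : Nonempty W := ⟨⟨0, le_rfl, by rw [map_zero, norm_zero]; exact one_pos⟩⟩
  set f : ℕ → W := TopologicalSpace.denseSeq W with hf
  have hfd : DenseRange f := TopologicalSpace.denseRange_denseSeq W
  set κ : ℝ := 1 / (1 + C) with hκ
  have hκ0 : 0 < κ := by positivity
  have hκW : ContinuousMap.const Cube κ ∈ W := by
    refine ⟨fun x => hκ0.le, ?_⟩
    have h1 : ‖ContinuousMap.const Cube κ‖ ≤ κ := by
      rw [ContinuousMap.norm_le _ hκ0.le]
      intro x
      rw [ContinuousMap.const_apply, Real.norm_eq_abs, abs_of_pos hκ0]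
    calc ‖θ (ContinuousMap.const Cube κ)‖ ≤ C * ‖ContinuousMap.const Cube κ‖ := hC _
      _ ≤ C * κ := mul_le_mul_of_nonneg_left h1 hC0
      _ < 1 := by
        rw [hκ, mul_one_div, div_lt_one (by positivity)]
        linarith
  set G : ℕ → Finset C(Cube, ℝ) := fun n =>
    insert (ContinuousMap.const Cube κ) ((Finset.range n).image fun k => (f k : C(Cube, ℝ))) with hG
  have hGW : ∀ n, ∀ g ∈ G n, g ∈ W := by
    intro n g hg
    simp only [hG, Finset.mem_insert, Finset.mem_image, Finset.mem_range] at hg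
    rcases hg with rfl | ⟨k, _, rfl⟩
    · exact hκW
    · exact (f k).2
  have hκG : ∀ n, ContinuousMap.const Cube κ ∈ G n := fun n => Finset.mem_insert_self _ _
  have hgood : ∀ n, Good (G n) := fun n =>
    ⟨fun g hg => (hGW n g hg).1, κ, hκ0, hκG n⟩
  have hGmono : ∀ n, G n ⊆ G (n + 1) := by
    intro n
    simp only [hG]
    apply Finset.insert_subset_insert
    apply Finset.image_subset_image
    intro k hk
    rw [Finset.mem_range] at hk ⊢
    omega
  have hfG : ∀ k n, k < n → (f k : C(Cube, ℝ)) ∈ G n := by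
    intro k n hkn
    simp only [hG]
    apply Finset.mem_insert_of_mem
    apply Finset.mem_image_of_mem
    exact Finset.mem_range.mpr hkn
  -- lower bound
  have hlow : ∀ n (g : C(Cube, ℝ)), ‖θ g‖ ≤ rho (G n) g := by
    intro n g
    apply le_csInf (adm_nonempty (hgood n) g)
    rintro r ⟨l, h1, h2, h3⟩
    have h4 : |θ g| ≤ ∑ g ∈ G n, l g • θ g := by
      rw [← hθabs]
      have := map_mono_of_abs θ hθabs h3
      rw [map_sum] at this
      simpa only [map_smul] using this
    have h5 : |θ g| ≤ |∑ g ∈ G n, l g • θ g| := h4.trans (le_abs_self _)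
    have h6 := HasSolidNorm.solid h5
    refine h6.trans ((norm_sum_le _ _).trans (le_trans ?_ h2))
    apply Finset.sum_le_sum
    intro g' hg'
    rw [norm_smul, Real.norm_eq_abs, abs_of_nonneg (h1 g' hg')]
    calc l g' * ‖θ g'‖ ≤ l g' * 1 := mul_le_mul_of_nonneg_left (hGW n g' hg').2.le (h1 g' hg')
      _ = l g' := mul_one _
  -- upper bound
  have hupp : ∀ (g : C(Cube, ℝ)) (ε : ℝ), 0 < ε → ∃ n0, ∀ n, n0 ≤ n →
      rho (G n) g ≤ ‖θ g‖ + ε := by
    intro g ε hε
    set s : ℝ := ‖θ g‖ + ε / 2 with hs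
    have hs0 : 0 < s := by have := norm_nonneg (θ g); positivity
    have hgW : s⁻¹ • |g| ∈ W := by
      refine ⟨smul_nonneg (inv_nonneg.mpr hs0.le) (abs_nonneg g), ?_⟩
      rw [map_smul, hθabs, norm_smul, norm_abs_eq_norm, Real.norm_eq_abs,
        abs_of_pos (inv_pos.mpr hs0), inv_mul_lt_iff₀ hs0, mul_one]
      rw [hs]; linarith
    set η : ℝ := ε / (2 * s) with hη
    have hη0 : 0 < η := by positivity
    obtain ⟨k, hk⟩ := hfd.exists_dist_lt (⟨s⁻¹ • |g|, hgW⟩ : W) (show 0 < η * κ by positivity)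
    refine ⟨k + 1, ?_⟩
    intro n hn
    have h1 : Adm (G n) ((f k : C(Cube, ℝ)) + η • ContinuousMap.const Cube κ) (1 + |η| * 1) :=
      adm_add (adm_single (hgood n) (hfG k n (by omega)))
        (adm_smul η (adm_single (hgood n) (hκG n)))
    have h2 : |(s⁻¹ • |g|)| ≤ |(f k : C(Cube, ℝ)) + η • ContinuousMap.const Cube κ| := by
      have h3 : 0 ≤ s⁻¹ • |g| := hgW.1
      rw [abs_of_nonneg h3]
      refine le_trans ?_ (le_abs_self _)
      intro y
      show (s⁻¹ • |g|) y ≤ (f k : C(Cube, ℝ)) y + η * κ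
      have h4 : dist (s⁻¹ • |g|) (f k : C(Cube, ℝ)) < η * κ := hk
      have h5 := ContinuousMap.dist_apply_le_dist (f := s⁻¹ • |g|) (g := (f k : C(Cube, ℝ))) y
      rw [Real.dist_eq] at h5
      have h6 := le_abs_self ((s⁻¹ • |g|) y - (f k : C(Cube, ℝ)) y)
      linarith
    have h3 : Adm (G n) (s⁻¹ • |g|) (1 + |η| * 1) := adm_mono h2 h1
    have h4 := adm_smul s h3
    have h5 : s • s⁻¹ • |g| = |g| := by
      rw [smul_smul, mul_inv_cancel₀ hs0.ne', one_smul]
    rw [h5] at h4
    have h6 : Adm (G n) g (|s| * (1 + |η| * 1)) := adm_mono (by rw [abs_abs]) h4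
    refine (rho_le_of_adm h6).trans ?_
    rw [abs_of_pos hs0, abs_of_pos hη0, mul_one]
    have h7 : s * (1 + η) = s + ε / 2 := by
      rw [hη]; field_simp
    rw [h7, hs]
    linarith
  refine ⟨fun n => RCLat (G n) (hgood n), fun n => idMap (G n) (G (n + 1)) (hgood n) (hgood (n + 1)),
    fun n => semiprojective_RCLat (G n) (hgood n), ?_, ?_⟩
  · intro n
    refine ⟨fun _ => rfl, ?_⟩
    intro g
    exact rho_subset (hgood n) (hGmono n) _
  · refine ⟨fun n => θ.comp (RC.equiv (G n) (hgood n)).symm.toLinearMap, ?_, ?_, ?_, ?_⟩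
    · intro n g
      exact hθabs _
    · intro n g
      rfl
    · intro n g
      have h1 : ∀ k, ‖composite (fun n => RCLat (G n) (hgood n))
          (fun n => idMap (G n) (G (n + 1)) (hgood n) (hgood (n + 1))) n k g‖ =
          rho (G (n + k)) ((RC.equiv (G n) (hgood n)).symm g) := by
        intro k
        have h2 : composite (fun n => RCLat (G n) (hgood n))
            (fun n => idMap (G n) (G (n + 1)) (hgood n) (hgood (n + 1))) n k g =
            RC.equiv (G (n + k)) (hgood (n + k)) ((RC.equiv (G n) (hgood n)).symm g) :=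
          composite_norm G hgood n k ((RC.equiv (G n) (hgood n)).symm g)
        rw [h2]
        rfl
      rw [tendsto_congr h1]
      set g' : C(Cube, ℝ) := (RC.equiv (G n) (hgood n)).symm g with hg'
      show Tendsto (fun k => rho (G (n + k)) g') atTop (𝓝 ‖θ g'‖)
      rw [Metric.tendsto_atTop]
      intro ε hε
      obtain ⟨n0, hn0⟩ := hupp g' (ε / 2) (by positivity)
      refine ⟨n0, ?_⟩
      intro k hk
      have h3 := hn0 (n + k) (by omega)
      have h4 := hlow (n + k) g'
      rw [Real.dist_eq, abs_lt]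
      constructor <;> linarith
    · apply Dense.mono _ hθd
      rintro _ ⟨g, rfl⟩
      exact mem_iUnion.mpr ⟨0, RC.equiv (G 0) (hgood 0) g, rfl⟩

end Pool.Agent.Results.MP_566259_an.InductiveLimit
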